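import Mathlib

/-!
Pair colourings of graphs in which every vertex has a large independent set of neighbours.
-/

namespace Pool.Agent.DBK

open Finset

variable {V : Type*} [DecidableEq V]

/-- `X` can be coloured with `c` colours, every class being a single vertex or an edge of `H`. -/
def PC (H : SimpleGraph V) (X : Finset V) (c : ℕ) : Prop :=
  ∃ φ : V → ℕ, (∀ v ∈ X, φ v < c) ∧
    (∀ u ∈ X, ∀ v ∈ X, u ≠ v → φ u = φ v → H.Adj u v) ∧
    (∀ u ∈ X, ∀ v ∈ X, ∀ w ∈ X, φ u = φ v → φ v = φ w → u = v ∨ v = w ∨ u = w)

def Indep (H : SimpleGraph V) (Z : Finset V) : Prop :=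
  ∀ u ∈ Z, ∀ v ∈ Z, ¬ H.Adj u v

/-- every vertex of `X` has an independent set of at least `k` neighbours inside `X` -/
def WC (H : SimpleGraph V) (k : ℕ) (X : Finset V) : Prop :=
  ∀ v ∈ X, ∃ W ⊆ X, (∀ w ∈ W, H.Adj v w) ∧ Indep H W ∧ k ≤ W.card

/-- `Z` spans exactly a triangle `p q r` and isolated vertices -/
def TriIso (H : SimpleGraph V) (Z : Finset V) : Prop :=
  ∃ p ∈ Z, ∃ q ∈ Z, ∃ r ∈ Z, H.Adj p q ∧ H.Adj q r ∧ H.Adj p r ∧
    ∀ u ∈ Z, ∀ v ∈ Z, H.Adj u v → (u = p ∨ u = q ∨ u = r) ∧ (v = p ∨ v = q ∨ v = r)

def Good (H : SimpleGraph V) (X : Finset V) (c : ℕ) : Prop :=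
  PC H X c ∨ (∃ Z ⊆ X, Indep H Z ∧ Z.card = c + 1) ∨ (∃ Z ⊆ X, TriIso H Z ∧ Z.card = c + 2)

variable {H : SimpleGraph V}

omit [DecidableEq V] in
theorem PC.mono {X : Finset V} {c c' : ℕ} (h : PC H X c) (hc : c ≤ c') : PC H X c' := by
  obtain ⟨φ, h1, h2, h3⟩ := h
  exact ⟨φ, fun v hv => lt_of_lt_of_le (h1 v hv) hc, h2, h3⟩

omit [DecidableEq V] in
theorem PC.subset {X Y : Finset V} {c : ℕ} (h : PC H X c) (hY : Y ⊆ X) : PC H Y c := by
  obtain ⟨φ, h1, h2, h3⟩ := h
  exact ⟨φ, fun v hv => h1 v (hY hv), fun u hu v hv => h2 u (hY hu) v (hY hv),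
    fun u hu v hv w hw => h3 u (hY hu) v (hY hv) w (hY hw)⟩

theorem PC.add_pair {X : Finset V} {c : ℕ} {x y : V} (hxy : H.Adj x y)
    (h : PC H (X \ {x, y}) c) : PC H X (c + 1) := by
  classical
  obtain ⟨φ, h1, h2, h3⟩ := h
  refine ⟨fun v => if v = x ∨ v = y then c else φ v, ?_, ?_, ?_⟩
  · intro v hv
    by_cases hv' : v = x ∨ v = y
    · simp [hv']
    · simp only [hv', if_false]
      have := h1 v (by simp [hv]; tauto)
      omega
  · intro u hu v hv huv he
    by_cases hu' : u = x ∨ u = y <;> by_cases hv' : v = x ∨ v = y
    · rcases hu' with rfl | rfl <;> rcases hv' with rfl | rfl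
      · exact absurd rfl huv
      · exact hxy
      · exact hxy.symm
      · exact absurd rfl huv
    · simp only [hu', hv', if_true, if_false] at he
      have := h1 v (by simp [hv]; tauto)
      omega
    · simp only [hu', hv', if_true, if_false] at he
      have := h1 u (by simp [hu]; tauto)
      omega
    · simp only [hu', hv', if_false] at he
      exact h2 u (by simp [hu]; tauto) v (by simp [hv]; tauto) huv he
  · intro u hu v hv w hw he he'
    by_cases hu' : u = x ∨ u = y <;> by_cases hv' : v = x ∨ v = y <;>
      by_cases hw' : w = x ∨ w = y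
    · rcases hu' with rfl | rfl <;> rcases hv' with rfl | rfl <;> rcases hw' with rfl | rfl <;>
        simp
    · simp only [hv', hw', if_true, if_false] at he'
      have := h1 w (by simp [hw]; tauto)
      omega
    · simp only [hu', hv', if_true, if_false] at he
      have := h1 v (by simp [hv]; tauto)
      omega
    · simp only [hu', hv', if_true, if_false] at he
      have := h1 v (by simp [hv]; tauto)
      omega
    · simp only [hu', hv', if_true, if_false] at he
      have := h1 u (by simp [hu]; tauto)
      omega
    · simp only [hu', hv', if_true, if_false] at he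
      have := h1 u (by simp [hu]; tauto)
      omega
    · simp only [hv', hw', if_true, if_false] at he'
      have := h1 v (by simp [hv]; tauto)
      omega
    · simp only [hu', hv', if_false] at he
      simp only [hv', hw', if_false] at he'
      exact h3 u (by simp [hu]; tauto) v (by simp [hv]; tauto) w (by simp [hw]; tauto) he he'

/-- an injection from `T` into `Z` along edges gives a pair colouring with `|Z|` colours -/
theorem PC.of_inj {T Z : Finset V} (hTZ : Disjoint T Z) (g : V → V)
    (hg : ∀ t ∈ T, g t ∈ Z ∧ H.Adj t (g t)) (hinj : ∀ t ∈ T, ∀ t' ∈ T, g t = g t' → t = t') :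
    PC H (T ∪ Z) Z.card := by
  classical
  let e := Z.equivFin
  let idx : V → ℕ := fun z => if hz : z ∈ Z then (e ⟨z, hz⟩).val else 0
  have hidx : ∀ z ∈ Z, idx z < Z.card := by
    intro z hz
    simp only [idx, hz, dif_pos]
    exact (e ⟨z, hz⟩).isLt
  have hidxinj : ∀ z ∈ Z, ∀ z' ∈ Z, idx z = idx z' → z = z' := by
    intro z hz z' hz' he
    simp only [idx, hz, hz', dif_pos] at he
    have := e.injective (Fin.ext he)
    simpa using this
  have hd : ∀ v ∈ Z, v ∉ T := fun v hv hT => (Finset.disjoint_left.mp hTZ hT hv)
  refine ⟨fun v => if v ∈ T then idx (g v) else idx v, ?_, ?_, ?_⟩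
  · intro v hv
    by_cases hT : v ∈ T
    · simp only [hT, if_true]; exact hidx _ (hg v hT).1
    · simp only [hT, if_false]
      have : v ∈ Z := by simpa [hT] using hv
      exact hidx _ this
  · intro u hu v hv huv he
    by_cases hu' : u ∈ T <;> by_cases hv' : v ∈ T
    · simp only [hu', hv', if_true] at he
      exact absurd (hinj u hu' v hv' (hidxinj _ (hg u hu').1 _ (hg v hv').1 he)) huv
    · simp only [hu', hv', if_true, if_false] at he
      have hvZ : v ∈ Z := by simpa [hv'] using hv
      have := hidxinj _ (hg u hu').1 _ hvZ he
      rw [← this]; exact (hg u hu').2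
    · simp only [hu', hv', if_true, if_false] at he
      have huZ : u ∈ Z := by simpa [hu'] using hu
      have := hidxinj _ huZ _ (hg v hv').1 he
      rw [this]; exact (hg v hv').2.symm
    · simp only [hu', hv', if_false] at he
      have huZ : u ∈ Z := by simpa [hu'] using hu
      have hvZ : v ∈ Z := by simpa [hv'] using hv
      exact absurd (hidxinj _ huZ _ hvZ he) huv
  · -- three elements with the same colour
    have key : ∀ a ∈ T ∪ Z, ∃ z ∈ Z, (if a ∈ T then idx (g a) else idx a) = idx z ∧
        ((a ∈ T ∧ g a = z) ∨ (a ∉ T ∧ a = z)) := by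
      intro a ha
      by_cases haT : a ∈ T
      · exact ⟨g a, (hg a haT).1, by simp [haT], Or.inl ⟨haT, rfl⟩⟩
      · have : a ∈ Z := by simpa [haT] using ha
        exact ⟨a, this, by simp [haT], Or.inr ⟨haT, rfl⟩⟩
    intro u hu v hv w hw he he'
    obtain ⟨zu, hzu, eu, hu'⟩ := key u hu
    obtain ⟨zv, hzv, ev, hv'⟩ := key v hv
    obtain ⟨zw, hzw, ew, hw'⟩ := key w hw
    simp only at he he'
    rw [eu, ev] at he
    rw [ev, ew] at he'
    have h1 := hidxinj _ hzu _ hzv he
    have h2 := hidxinj _ hzv _ hzw he'
    subst h1; subst h2
    rcases hu' with ⟨a1, a2⟩ | ⟨a1, a2⟩ <;> rcases hv' with ⟨b1, b2⟩ | ⟨b1, b2⟩ <;>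
      rcases hw' with ⟨c1, c2⟩ | ⟨c1, c2⟩
    · left; exact hinj u a1 v b1 (by rw [a2, b2])
    · left; exact hinj u a1 v b1 (by rw [a2, b2])
    · right; right; exact hinj u a1 w c1 (by rw [a2, c2])
    · right; left; rw [b2, c2]
    · right; left; exact hinj v b1 w c1 (by rw [b2, c2])
    · right; right; rw [a2, c2]
    · left; rw [a2, b2]
    · left; rw [a2, b2]

theorem PC.card (X : Finset V) : PC H X X.card := by
  have := PC.of_inj (H := H) (T := ∅) (Z := X) (by simp) id (by simp) (by simp)
  simpa using this

theorem WC.remove {k : ℕ} {X : Finset V} {x y : V} (hxy : H.Adj x y) (h : WC H (k + 1) X) :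
    WC H k (X \ {x, y}) := by
  intro v hv
  simp only [mem_sdiff, mem_insert, mem_singleton, not_or] at hv
  obtain ⟨W, hWX, hW1, hW2, hW3⟩ := h v hv.1
  refine ⟨W \ {x, y}, Finset.sdiff_subset_sdiff hWX (le_refl _), ?_, ?_, ?_⟩
  · intro w hw
    exact hW1 w (Finset.sdiff_subset hw)
  · intro u hu w hw
    exact hW2 u (Finset.sdiff_subset hu) w (Finset.sdiff_subset hw)
  · have h1 : (W ∩ {x, y}).card ≤ 1 := by
      rw [Finset.card_le_one]
      intro a ha b hb
      simp only [mem_inter, mem_insert, mem_singleton] at ha hb
      rcases ha with ⟨ha, rfl | rfl⟩ <;> rcases hb with ⟨hb, rfl | rfl⟩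
      · rfl
      · exact absurd hxy (hW2 _ ha _ hb)
      · exact absurd hxy.symm (hW2 _ ha _ hb)
      · rfl
    have h2 := Finset.card_sdiff_add_card_inter W {x, y}
    omega

/-- Hall's theorem in the form used here -/
theorem hall (T Z : Finset V) :
    (∃ g : V → V, (∀ t ∈ T, g t ∈ Z ∧ H.Adj t (g t)) ∧ ∀ t ∈ T, ∀ t' ∈ T, g t = g t' → t = t') ∨
    (∃ T1 ⊆ T, ∃ N ⊆ Z, (∀ t ∈ T1, ∀ z ∈ Z, H.Adj t z → z ∈ N) ∧ N.card < T1.card) := by
  classical
  let t : T → Finset V := fun a => Z.filter (fun z => H.Adj a.1 z)
  by_cases hh : ∀ s : Finset T, s.card ≤ (s.biUnion t).card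
  · left
    obtain ⟨f, hf1, hf2⟩ := (Finset.all_card_le_biUnion_card_iff_exists_injective t).mp hh
    refine ⟨fun v => if hv : v ∈ T then f ⟨v, hv⟩ else v, ?_, ?_⟩
    · intro v hv
      have := hf2 ⟨v, hv⟩
      simp only [t, mem_filter] at this
      simp only [hv, dif_pos]
      exact this
    · intro a ha b hb he
      simp only [ha, hb, dif_pos] at he
      have := hf1 he
      simpa using this
  · right
    push Not at hh
    obtain ⟨s, hs⟩ := hh
    refine ⟨s.map ⟨Subtype.val, Subtype.val_injective⟩, ?_, s.biUnion t, ?_, ?_, ?_⟩
    · intro v hv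
      simp only [mem_map, Function.Embedding.coeFn_mk] at hv
      obtain ⟨a, _, rfl⟩ := hv
      exact a.2
    · intro v hv
      simp only [mem_biUnion, t, mem_filter] at hv
      obtain ⟨_, _, h, _⟩ := hv
      exact h
    · intro a ha z hz haz
      simp only [mem_map, Function.Embedding.coeFn_mk] at ha
      obtain ⟨b, hb, rfl⟩ := ha
      simp only [mem_biUnion, t, mem_filter]
      exact ⟨b, hb, hz, haz⟩
    · rw [Finset.card_map]; exact hs

theorem Indep.insert' {Z : Finset V} {t : V} (hZ : Indep H Z) (ht : ∀ z ∈ Z, ¬ H.Adj t z) :
    Indep H (insert t Z) := by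
  intro u hu v hv
  simp only [mem_insert] at hu hv
  rcases hu with rfl | hu <;> rcases hv with rfl | hv
  · exact H.loopless.irrefl _
  · exact ht v hv
  · exact fun h => ht u hu h.symm
  · exact hZ u hu v hv

theorem hallStep {k c : ℕ} {X Z : Finset V} (hX : X.card = c + k + 2) (hc : k + 2 ≤ c)
    (hW : WC H k X) (hZX : Z ⊆ X) (hZ : Indep H Z) (hZc : Z.card = c) : Good H X c := by
  classical
  set T := X \ Z with hT
  have hTc : T.card = k + 2 := by
    have := Finset.card_sdiff_add_card_eq_card hZX
    rw [← hT] at this
    omega
  have hTZ : Disjoint T Z := Finset.sdiff_disjoint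
  have hun : T ∪ Z = X := Finset.sdiff_union_of_subset hZX
  rcases hall (H := H) T Z with ⟨g, hg1, hg2⟩ | ⟨T1, hT1, N, hN, hadj, hlt⟩
  · left
    have := PC.of_inj hTZ g hg1 hg2
    rw [hun, hZc] at this
    exact this
  · have hT1c : T1.card ≤ k + 2 := by rw [← hTc]; exact Finset.card_le_card hT1
    -- a vertex of Z outside N
    obtain ⟨z, hzZ, hzN⟩ : ∃ z ∈ Z, z ∉ N := by
      by_contra hcon
      push Not at hcon
      have : Z.card ≤ N.card := Finset.card_le_card hcon
      omega
    obtain ⟨W, hWX, hW1, hW2, hW3⟩ := hW z (hZX hzZ)
    have hWT : W ⊆ T \ T1 := by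
      intro w hw
      simp only [mem_sdiff, hT]
      refine ⟨⟨hWX hw, fun hwZ => hZ z hzZ w hwZ (hW1 w hw)⟩, fun hw1 => ?_⟩
      exact hzN (hadj w hw1 z hzZ (hW1 w hw).symm)
    have h1 : W.card ≤ (T \ T1).card := Finset.card_le_card hWT
    have h2 := Finset.card_sdiff_add_card_eq_card hT1
    have hT1le : T1.card ≤ 2 := by omega
    have hT1pos : 0 < T1.card := by omega
    -- helper: single vertex without neighbours in Z
    have single : ∀ t ∈ T, (∀ z ∈ Z, ¬ H.Adj t z) → Good H X c := by
      intro t ht hno
      right; left
      refine ⟨insert t Z, ?_, hZ.insert' hno, ?_⟩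
      · intro v hv
        simp only [mem_insert] at hv
        rcases hv with rfl | hv
        · exact (Finset.mem_sdiff.mp ht).1
        · exact hZX hv
      · rw [Finset.card_insert_of_notMem (Finset.disjoint_left.mp hTZ ht), hZc]
    rcases Nat.lt_or_ge T1.card 2 with h3 | h3
    · have h4 : T1.card = 1 := by omega
      obtain ⟨t, ht⟩ := Finset.card_eq_one.mp h4
      have hN0 : N = ∅ := by
        rw [← Finset.card_eq_zero]; omega
      apply single t (hT1 (by simp [ht]))
      intro z hz htz
      have := hadj t (by simp [ht]) z hz htz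
      simp [hN0] at this
    · have h4 : T1.card = 2 := by omega
      obtain ⟨t, t', htt', ht⟩ := Finset.card_eq_two.mp h4
      have htT : t ∈ T := hT1 (by simp [ht])
      have ht'T : t' ∈ T := hT1 (by simp [ht])
      rcases Nat.eq_zero_or_pos N.card with h5 | h5
      · have hN0 : N = ∅ := by rwa [← Finset.card_eq_zero]
        apply single t htT
        intro z hz htz
        have := hadj t (by simp [ht]) z hz htz
        simp [hN0] at this
      · have h6 : N.card = 1 := by omega
        obtain ⟨u, hu⟩ := Finset.card_eq_one.mp h6
        have huZ : u ∈ Z := hN (by simp [hu])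
        have hadj1 : ∀ z ∈ Z, H.Adj t z → z = u := by
          intro z hz htz
          have := hadj t (by simp [ht]) z hz htz
          simpa [hu] using this
        have hadj2 : ∀ z ∈ Z, H.Adj t' z → z = u := by
          intro z hz htz
          have := hadj t' (by simp [ht]) z hz htz
          simpa [hu] using this
        by_cases htu : H.Adj t u
        · by_cases ht'u : H.Adj t' u
          · have htZ : t ∉ Z := Finset.disjoint_left.mp hTZ htT
            have ht'Z : t' ∉ Z := Finset.disjoint_left.mp hTZ ht'T
            by_cases htt : H.Adj t t'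
            · right; right
              refine ⟨insert t (insert t' Z), ?_, ?_, ?_⟩
              · intro v hv
                simp only [mem_insert] at hv
                rcases hv with rfl | rfl | hv
                · exact (Finset.mem_sdiff.mp htT).1
                · exact (Finset.mem_sdiff.mp ht'T).1
                · exact hZX hv
              · refine ⟨t, by simp, t', by simp, u, by simp [huZ], htt, ht'u, htu, ?_⟩
                have aux : ∀ a ∈ insert t (insert t' Z), ∀ b ∈ insert t (insert t' Z),
                    H.Adj a b → (a = t ∨ a = t' ∨ a = u) := by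
                  intro a ha b hb hab
                  simp only [mem_insert] at ha hb
                  rcases ha with rfl | rfl | ha
                  · simp
                  · simp
                  · rcases hb with rfl | rfl | hb
                    · right; right; exact hadj1 a ha hab.symm
                    · right; right; exact hadj2 a ha hab.symm
                    · exact absurd hab (hZ a ha b hb)
                intro a ha b hb hab
                exact ⟨aux a ha b hb hab, aux b hb a ha hab.symm⟩
              · rw [Finset.card_insert_of_notMem, Finset.card_insert_of_notMem ht'Z, hZc]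
                simp only [mem_insert, not_or]
                exact ⟨htt', htZ⟩
            · -- replace u by t, t'
              right; left
              refine ⟨insert t (insert t' (Z.erase u)), ?_, ?_, ?_⟩
              · intro v hv
                simp only [mem_insert, mem_erase] at hv
                rcases hv with rfl | rfl | hv
                · exact (Finset.mem_sdiff.mp htT).1
                · exact (Finset.mem_sdiff.mp ht'T).1
                · exact hZX hv.2
              · have hZ1 : Indep H (insert t' (Z.erase u)) := by
                  apply Indep.insert'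
                  · intro a ha b hb
                    exact hZ a (Finset.mem_of_mem_erase ha) b (Finset.mem_of_mem_erase hb)
                  · intro z hz hh
                    exact (Finset.ne_of_mem_erase hz) (hadj2 z (Finset.mem_of_mem_erase hz) hh)
                apply hZ1.insert'
                intro z hz hh
                simp only [mem_insert] at hz
                rcases hz with rfl | hz
                · exact htt hh
                · exact (Finset.ne_of_mem_erase hz) (hadj1 z (Finset.mem_of_mem_erase hz) hh)
              · rw [Finset.card_insert_of_notMem, Finset.card_insert_of_notMem,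
                  Finset.card_erase_of_mem huZ, hZc]
                · omega
                · intro hh; exact ht'Z (Finset.mem_of_mem_erase hh)
                · simp only [mem_insert, not_or]
                  exact ⟨htt', fun hh => htZ (Finset.mem_of_mem_erase hh)⟩
          · apply single t' ht'T
            intro z hz hh
            have := hadj2 z hz hh
            subst this
            exact ht'u hh
        · apply single t htT
          intro z hz hh
          have := hadj1 z hz hh
          subst this
          exact htu hh


theorem step {k c : ℕ} {X : Finset V} (hk1 : 1 ≤ k) (hX : X.card = c + k + 2) (hc : k + 2 ≤ c)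
    (hk : 2 ≤ k ∨ k + 3 ≤ c) (hW : WC H k X) {x y : V}
    (hxy : H.Adj x y) (hG : Good H (X \ {x, y}) (c - 1)) : Good H X c := by
  classical
  rcases hG with hG | ⟨Z, hZX, hZ, hZc⟩ | ⟨Z, hZX, ⟨p, hp, q, hq, r, hr, hpq, hqr, hpr, hiso⟩, hZc⟩
  · left
    have := hG.add_pair hxy
    have h1 : c - 1 + 1 = c := by omega
    rwa [h1] at this
  · exact hallStep hX hc hW (hZX.trans Finset.sdiff_subset) hZ (by omega)
  · have hZX' : Z ⊆ X := hZX.trans Finset.sdiff_subset
    have hne1 : p ≠ q := hpq.ne
    have hne2 : q ≠ r := hqr.ne
    have hne3 : p ≠ r := hpr.ne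
    set T := X \ Z with hT
    have hTc : T.card = k + 1 := by
      have := Finset.card_sdiff_add_card_eq_card hZX'
      rw [← hT] at this
      omega
    set I := Z \ {p, q, r} with hI
    have hpqr : ({p, q, r} : Finset V) ⊆ Z := by
      intro v hv
      simp only [mem_insert, mem_singleton] at hv
      rcases hv with rfl | rfl | rfl <;> assumption
    have h3 : ({p, q, r} : Finset V).card = 3 := by
      rw [Finset.card_insert_of_notMem, Finset.card_insert_of_notMem, Finset.card_singleton]
      · simpa using hne2
      · simp [hne1, hne3]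
    have hIc : I.card = c + 1 - 3 := by
      have := Finset.card_sdiff_add_card_eq_card hpqr
      rw [← hI] at this
      omega
    have hIc' : k ≤ I.card := by
      rcases hk with hk | hk <;> omega
    have hIne : I.Nonempty := by
      rw [← Finset.card_pos]; omega
    have hTdisj : ∀ t ∈ T, t ∉ Z := fun t ht => (Finset.mem_sdiff.mp ht).2
    -- vertices of I have all their neighbours in T
    have hIT : ∀ z ∈ I, ∀ w ∈ X, H.Adj z w → w ∈ T := by
      intro z hz w hw hzw
      rw [hT, Finset.mem_sdiff]
      refine ⟨hw, fun hwZ => ?_⟩
      rw [hI, Finset.mem_sdiff] at hz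
      have := (hiso z hz.1 w hwZ hzw).1
      apply hz.2
      simp only [mem_insert, mem_singleton]
      exact this
    -- the main claim for one of the three vertices
    have main : ∀ a b d : V, a ∈ Z → b ∈ Z → d ∈ Z → H.Adj a b → H.Adj b d → H.Adj a d →
        ({a, b, d} : Finset V) = {p, q, r} → Good H X c ∨
        ∃ t ∈ T, (∀ z ∈ I, ¬ H.Adj t z) ∧ ¬ H.Adj t d := by
      intro a b d ha hb hd hab hbd had habd
      have hdI : d ∉ I := by
        rw [hI, Finset.mem_sdiff, ← habd]; simp
      rcases hall (H := H) T (insert d I) with ⟨g, hg1, hg2⟩ | ⟨T1, hT1, N, hN, hadj, hlt⟩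
      · left; left
        have hdis : Disjoint T (insert d I) := by
          rw [Finset.disjoint_left]
          intro t ht htd
          simp only [mem_insert] at htd
          rcases htd with rfl | htd
          · exact hTdisj _ ht hd
          · exact hTdisj _ ht (Finset.sdiff_subset htd)
        have h5 := PC.of_inj hdis g hg1 hg2
        rw [Finset.card_insert_of_notMem hdI] at h5
        have h6 : X \ {a, b} ⊆ T ∪ insert d I := by
          intro v hv
          simp only [mem_sdiff, mem_insert, mem_singleton, not_or] at hv
          simp only [mem_union, mem_insert, hT, hI, mem_sdiff, ← habd, mem_singleton, not_or]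
          by_cases hvZ : v ∈ Z
          · by_cases hvd : v = d
            · right; left; exact hvd
            · right; right; exact ⟨hvZ, hv.2.1, hv.2.2, hvd⟩
          · left; exact ⟨hv.1, hvZ⟩
        have h7 := (h5.subset h6).add_pair hab
        have h8 : I.card + 1 + 1 = c := by omega
        rwa [h8] at h7
      · right
        have hT1c : T1.card ≤ k + 1 := by rw [← hTc]; exact Finset.card_le_card hT1
        -- a vertex of I outside N
        obtain ⟨z, hzI, hzN⟩ : ∃ z ∈ I, z ∉ N := by
          by_contra hcon
          push Not at hcon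
          have h9 : I.card ≤ N.card := Finset.card_le_card hcon
          rcases hk with hk | hk
          · -- then N = I, T1 = T
            have h10 : I.card = N.card := by omega
            have h11 : I = N := Finset.eq_of_subset_of_card_le hcon (by omega)
            have h12 : T1 = T := Finset.eq_of_subset_of_card_le hT1 (by omega)
            obtain ⟨W, hWX, hW1, hW2, hW3⟩ := hW d (hZX' hd)
            -- W has an element in T
            have h13 : ∃ w ∈ W, w ∈ T := by
              by_contra hno
              push Not at hno
              have hWsub : W ⊆ {a, b} := by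
                intro w hw
                have hwZ : w ∈ Z := by
                  by_contra hwZ
                  exact hno w hw (by rw [hT, Finset.mem_sdiff]; exact ⟨hWX hw, hwZ⟩)
                have h14 := (hiso d hd w hwZ (hW1 w hw)).2
                have h15 : w ∈ ({a, b, d} : Finset V) := by
                  rw [habd]; simp only [mem_insert, mem_singleton]; exact h14
                simp only [mem_insert, mem_singleton] at h15 ⊢
                rcases h15 with h15 | h15 | h15
                · left; exact h15
                · right; exact h15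
                · subst h15; exact absurd (hW1 w hw) (H.loopless.irrefl _)
              have h16 : W.card ≤ 1 := by
                rw [Finset.card_le_one]
                intro u hu w hw
                have hu' := hWsub hu
                have hw' := hWsub hw
                simp only [mem_insert, mem_singleton] at hu' hw'
                rcases hu' with rfl | rfl <;> rcases hw' with rfl | rfl
                · rfl
                · exact absurd hab (hW2 _ hu _ hw)
                · exact absurd hab.symm (hW2 _ hu _ hw)
                · rfl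
              omega
            obtain ⟨w, hw, hwT⟩ := h13
            have := hadj w (by rw [h12]; exact hwT) d (by simp) (hW1 w hw).symm
            rw [← h11] at this
            exact hdI this
          · omega
        obtain ⟨W, hWX, hW1, hW2, hW3⟩ := hW z (hZX' (Finset.sdiff_subset hzI))
        have hWT : W ⊆ T \ T1 := by
          intro w hw
          rw [Finset.mem_sdiff]
          refine ⟨hIT z hzI w (hWX hw) (hW1 w hw), fun hw1 => ?_⟩
          exact hzN (hadj w hw1 z (by simp [hzI]) (hW1 w hw).symm)
        have h1 : W.card ≤ (T \ T1).card := Finset.card_le_card hWT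
        have h2 := Finset.card_sdiff_add_card_eq_card hT1
        have h4 : T1.card = 1 := by omega
        obtain ⟨t, ht⟩ := Finset.card_eq_one.mp h4
        have hN0 : N = ∅ := by
          rw [← Finset.card_eq_zero]; omega
        refine ⟨t, hT1 (by simp [ht]), ?_, ?_⟩
        · intro z' hz' hh
          have := hadj t (by simp [ht]) z' (by simp [hz']) hh
          simp [hN0] at this
        · intro hh
          have := hadj t (by simp [ht]) d (by simp) hh
          simp [hN0] at this
    rcases main p q r hp hq hr hpq hqr hpr rfl with hg | ⟨t1, ht1, ht1I, ht1r⟩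
    · exact hg
    rcases main q r p hq hr hp hqr hpr.symm hpq.symm (by ext v; simp; tauto) with
      hg | ⟨t2, ht2, ht2I, ht2p⟩
    · exact hg
    rcases main p r q hp hr hq hpr hqr.symm hpq (by ext v; simp; tauto) with
      hg | ⟨t3, ht3, ht3I, ht3q⟩
    · exact hg
    -- all three are equal
    have uniq : ∀ a ∈ T, ∀ b ∈ T, (∀ z ∈ I, ¬ H.Adj a z) → (∀ z ∈ I, ¬ H.Adj b z) → a = b := by
      intro a ha b hb haI hbI
      by_contra hab
      obtain ⟨z, hz⟩ := hIne
      obtain ⟨W, hWX, hW1, hW2, hW3⟩ := hW z (hZX' (Finset.sdiff_subset hz))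
      have hWT : W ⊆ T \ {a, b} := by
        intro w hw
        simp only [mem_sdiff, mem_insert, mem_singleton, not_or]
        refine ⟨hIT z hz w (hWX hw) (hW1 w hw), ?_, ?_⟩
        · rintro rfl; exact haI z hz (hW1 w hw).symm
        · rintro rfl; exact hbI z hz (hW1 w hw).symm
      have h1 : W.card ≤ (T \ {a, b}).card := Finset.card_le_card hWT
      have hab2 : ({a, b} : Finset V) ⊆ T := by
        intro v hv
        simp only [mem_insert, mem_singleton] at hv
        rcases hv with rfl | rfl <;> assumption
      have h2 := Finset.card_sdiff_add_card_eq_card hab2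
      have h4 : ({a, b} : Finset V).card = 2 := Finset.card_pair hab
      omega
    have e12 := uniq t1 ht1 t2 ht2 ht1I ht2I
    have e13 := uniq t1 ht1 t3 ht3 ht1I ht3I
    subst e12
    subst e13
    have htZ : ∀ z ∈ Z, ¬ H.Adj t1 z := by
      intro z hz
      by_cases hzI : z ∈ I
      · exact ht1I z hzI
      · rw [hI, Finset.mem_sdiff] at hzI
        have : z ∈ ({p, q, r} : Finset V) := by
          by_contra hh; exact hzI ⟨hz, hh⟩
        simp only [mem_insert, mem_singleton] at this
        rcases this with rfl | rfl | rfl
        · exact ht2p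
        · exact ht3q
        · exact ht1r
    right; right
    refine ⟨insert t1 Z, ?_, ⟨p, by simp [hp], q, by simp [hq], r, by simp [hr],
      hpq, hqr, hpr, ?_⟩, ?_⟩
    · intro v hv
      simp only [mem_insert] at hv
      rcases hv with rfl | hv
      · exact (Finset.mem_sdiff.mp ht1).1
      · exact hZX' hv
    · intro u hu v hv huv
      simp only [mem_insert] at hu hv
      rcases hu with rfl | hu <;> rcases hv with rfl | hv
      · exact absurd huv (H.loopless.irrefl _)
      · exact absurd huv (htZ v hv)
      · exact absurd huv.symm (htZ u hu)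
      · exact hiso u hu v hv huv
    · rw [Finset.card_insert_of_notMem (hTdisj _ ht1)]
      omega

/-- the case of more than `2k + 4` vertices -/
theorem good_odd : ∀ (k c : ℕ) (X : Finset V), X.card = c + k + 2 → k + 3 ≤ c → WC H k X →
    Good H X c := by
  classical
  intro k
  induction k with
  | zero =>
    intro c X hX hc hW
    by_cases hind : Indep H X
    · right; left
      obtain ⟨Z, hZ, hZc⟩ := Finset.exists_subset_card_eq (s := X) (n := c + 1) (by omega)
      exact ⟨Z, hZ, fun u hu v hv => hind u (hZ hu) v (hZ hv), hZc⟩
    · unfold Indep at hind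
      push Not at hind
      obtain ⟨x, hx, y, hy, hxy⟩ := hind
      have hxyX : ({x, y} : Finset V) ⊆ X := by
        intro v hv
        simp only [mem_insert, mem_singleton] at hv
        rcases hv with rfl | rfl <;> assumption
      have h2 := Finset.card_sdiff_add_card_eq_card hxyX
      have h4 : ({x, y} : Finset V).card = 2 := Finset.card_pair hxy.ne
      by_cases hind2 : Indep H (X \ {x, y})
      · exact hallStep (k := 0) hX (by omega) hW Finset.sdiff_subset hind2 (by omega)
      · unfold Indep at hind2
        push Not at hind2
        obtain ⟨x', hx', y', hy', hxy'⟩ := hind2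
        have hxyX' : ({x', y'} : Finset V) ⊆ X \ {x, y} := by
          intro v hv
          simp only [mem_insert, mem_singleton] at hv
          rcases hv with rfl | rfl <;> assumption
        have h2' := Finset.card_sdiff_add_card_eq_card hxyX'
        have h4' : ({x', y'} : Finset V).card = 2 := Finset.card_pair hxy'.ne
        left
        have h5 := ((PC.card (H := H) ((X \ {x, y}) \ {x', y'})).add_pair hxy').add_pair hxy
        exact h5.mono (by omega)
  | succ k ih =>
    intro c X hX hc hW
    have hXne : X.Nonempty := by rw [← Finset.card_pos]; omega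
    obtain ⟨x, hx⟩ := hXne
    obtain ⟨W, hWX, hW1, hW2, hW3⟩ := hW x hx
    have hWne : W.Nonempty := by rw [← Finset.card_pos]; omega
    obtain ⟨y, hy⟩ := hWne
    have hxy : H.Adj x y := hW1 y hy
    have hyX := hWX hy
    have hxyX : ({x, y} : Finset V) ⊆ X := by
      intro v hv
      simp only [mem_insert, mem_singleton] at hv
      rcases hv with rfl | rfl <;> assumption
    have h2 := Finset.card_sdiff_add_card_eq_card hxyX
    have h4 : ({x, y} : Finset V).card = 2 := Finset.card_pair hxy.ne
    exact step (by omega) hX (by omega) (Or.inr hc) hW hxy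
      (ih (c - 1) (X \ {x, y}) (by omega) (by omega) (hW.remove hxy))

/-- the case of exactly `2k + 4` vertices -/
theorem good_even {k c : ℕ} {X : Finset V} (hk : 3 ≤ k) (hX : X.card = c + k + 2)
    (hc : c = k + 2) (hW : WC H k X) : Good H X c := by
  classical
  -- a largest independent set
  obtain ⟨A, hA, hAmax⟩ := Finset.exists_max_image (X.powerset.filter (fun Z => Indep H Z))
    Finset.card ⟨∅, by
      rw [mem_filter, mem_powerset]
      exact ⟨Finset.empty_subset _, fun u hu => absurd hu (Finset.notMem_empty u)⟩⟩
  simp only [mem_filter, mem_powerset] at hA hAmax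
  obtain ⟨hAX, hAI⟩ := hA
  have edge : ∀ Y ⊆ X, A.card < Y.card → ∃ x ∈ Y, ∃ y ∈ Y, H.Adj x y := by
    intro Y hY hlt
    by_contra hcon
    push Not at hcon
    have := hAmax Y ⟨hY, hcon⟩
    omega
  have hAk : k ≤ A.card := by
    have hXne : X.Nonempty := by rw [← Finset.card_pos]; omega
    obtain ⟨x, hx⟩ := hXne
    obtain ⟨W, hWX, hW1, hW2, hW3⟩ := hW x hx
    have := hAmax W ⟨hWX, hW2⟩
    omega
  have hsd := Finset.card_sdiff_add_card_eq_card hAX
  by_cases h1 : c ≤ A.card
  · obtain ⟨Z, hZ, hZc⟩ := Finset.exists_subset_card_eq h1
    exact hallStep hX (by omega) hW (hZ.trans hAX) (fun u hu v hv => hAI u (hZ hu) v (hZ hv)) hZc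
  · obtain ⟨x, hx, y, hy, hxy⟩ := edge (X \ A) Finset.sdiff_subset (by omega)
    have hxA := (Finset.mem_sdiff.mp hx).2
    have hyA := (Finset.mem_sdiff.mp hy).2
    have hxX := (Finset.mem_sdiff.mp hx).1
    have hyX := (Finset.mem_sdiff.mp hy).1
    have hxyX : ({x, y} : Finset V) ⊆ X := by
      intro v hv
      simp only [mem_insert, mem_singleton] at hv
      rcases hv with rfl | rfl <;> assumption
    have h2 := Finset.card_sdiff_add_card_eq_card hxyX
    have h4 : ({x, y} : Finset V).card = 2 := Finset.card_pair hxy.ne
    have hW1 : WC H (k - 1) (X \ {x, y}) := by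
      have : k = (k - 1) + 1 := by omega
      rw [this] at hW
      exact hW.remove hxy
    have hAX1 : A ⊆ X \ {x, y} := by
      intro v hv
      simp only [mem_sdiff, mem_insert, mem_singleton, not_or]
      refine ⟨hAX hv, ?_, ?_⟩
      · rintro rfl; exact hxA hv
      · rintro rfl; exact hyA hv
    have hG1 : Good H (X \ {x, y}) (c - 1) := by
      by_cases h5 : c - 1 ≤ A.card
      · obtain ⟨Z, hZ, hZc⟩ := Finset.exists_subset_card_eq h5
        exact hallStep (k := k - 1) (by omega) (by omega) hW1 (hZ.trans hAX1)
          (fun u hu v hv => hAI u (hZ hu) v (hZ hv)) hZc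
      · have hsd1 := Finset.card_sdiff_add_card_eq_card hAX1
        obtain ⟨x', hx', y', hy', hxy'⟩ := edge ((X \ {x, y}) \ A)
          (Finset.sdiff_subset.trans Finset.sdiff_subset) (by omega)
        have hxA' := (Finset.mem_sdiff.mp hx').2
        have hyA' := (Finset.mem_sdiff.mp hy').2
        have hxX' := (Finset.mem_sdiff.mp hx').1
        have hyX' := (Finset.mem_sdiff.mp hy').1
        have hxyX' : ({x', y'} : Finset V) ⊆ X \ {x, y} := by
          intro v hv
          simp only [mem_insert, mem_singleton] at hv
          rcases hv with rfl | rfl <;> assumption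
        have h2' := Finset.card_sdiff_add_card_eq_card hxyX'
        have h4' : ({x', y'} : Finset V).card = 2 := Finset.card_pair hxy'.ne
        have hW2 : WC H (k - 2) ((X \ {x, y}) \ {x', y'}) := by
          have : k - 1 = (k - 2) + 1 := by omega
          rw [this] at hW1
          exact hW1.remove hxy'
        have hAX2 : A ⊆ (X \ {x, y}) \ {x', y'} := by
          intro v hv
          rw [Finset.mem_sdiff]
          refine ⟨hAX1 hv, ?_⟩
          simp only [mem_insert, mem_singleton, not_or]
          constructor
          · rintro rfl; exact hxA' hv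
          · rintro rfl; exact hyA' hv
        have hG2 : Good H ((X \ {x, y}) \ {x', y'}) (c - 1 - 1) :=
          hallStep (k := k - 2) (by omega) (by omega) hW2 hAX2 hAI (by omega)
        exact step (k := k - 1) (by omega) (by omega) (by omega) (Or.inl (by omega)) hW1
          hxy' hG2
    exact step (by omega) hX (by omega) (Or.inl (by omega)) hW hxy hG1

theorem good {k c : ℕ} {X : Finset V} (hX : X.card = c + k + 2)
    (hc : k + 2 ≤ c) (hk : 3 ≤ k ∨ k + 3 ≤ c) (hW : WC H k X) : Good H X c := by
  by_cases h : k + 3 ≤ c
  · exact good_odd k c X hX h hW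
  · exact good_even (by omega) hX (by omega) hW

end Pool.Agent.DBK
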