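import Mathlib

/-!
Digraphs (loopless relations), dicolourings, bicliques and the digraphs `H_k`.
-/

namespace Pool.Agent.DBK

/-- out-degree of `v` in the digraph with arc relation `E` -/
noncomputable def outDeg {V : Type*} (E : V → V → Prop) (v : V) : ℕ := Nat.card {w // E v w}

/-- in-degree of `v` in the digraph with arc relation `E` -/
noncomputable def inDeg {V : Type*} (E : V → V → Prop) (v : V) : ℕ := Nat.card {w // E w v}

/-- the subdigraph induced on `A` has no directed cycle, that is, no closed directed walk -/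
def AcyclicOn {V : Type*} (E : V → V → Prop) (A : Set V) : Prop :=
  ∀ x, ¬ Relation.TransGen (fun a b => a ∈ A ∧ b ∈ A ∧ E a b) x x

/-- there is a `k`-dicolouring: every colour class induces an acyclic subdigraph -/
def Dicolourable {V : Type*} (E : V → V → Prop) (k : ℕ) : Prop :=
  ∃ φ : V → Fin k, ∀ i, AcyclicOn E {v | φ v = i}

/-- every ordered pair of distinct vertices of `S` is an arc -/
def IsBiclique {V : Type*} (E : V → V → Prop) (S : Finset V) : Prop :=
  ∀ u ∈ S, ∀ v ∈ S, u ≠ v → E u v

/-- the digraph contains `H_k`, a directed triangle joined in both directions to a complete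
digraph on `k - 2` vertices, as a (not necessarily induced) subdigraph -/
def ContainsH {V : Type*} (E : V → V → Prop) (k : ℕ) : Prop :=
  ∃ f : Fin 3 ⊕ Fin (k - 2) → V, Function.Injective f ∧
    (∀ i : Fin 3, E (f (Sum.inl i)) (f (Sum.inl (i + 1)))) ∧
    (∀ (i : Fin 3) (j : Fin (k - 2)),
      E (f (Sum.inl i)) (f (Sum.inr j)) ∧ E (f (Sum.inr j)) (f (Sum.inl i))) ∧
    (∀ i j : Fin (k - 2), i ≠ j → E (f (Sum.inr i)) (f (Sum.inr j)))

end Pool.Agent.DBK
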