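import Pool.Agent.DBK.Core
import Pool.Agent.DBK.Defs

/-!
The Borodin-Kostochka bound for digraphs without acyclic sets of size three.
-/

namespace Pool.Agent.DBK

open Finset

section

variable {V : Type*} [Fintype V] [DecidableEq V]

/-- the graph of pairs that do not form a digon -/
def cg (E : V → V → Prop) : SimpleGraph V where
  Adj u v := u ≠ v ∧ ¬ (E u v ∧ E v u)
  symm := ⟨fun _ _ h => ⟨h.1.symm, fun hh => h.2 ⟨hh.2, hh.1⟩⟩⟩
  loopless := ⟨fun _ h => h.1 rfl⟩

open Classical in
/-- non-out-neighbours -/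
noncomputable def Wp (E : V → V → Prop) (v : V) : Finset V := univ.filter (fun w => w ≠ v ∧ ¬ E v w)

open Classical in
/-- non-in-neighbours -/
noncomputable def Wm (E : V → V → Prop) (v : V) : Finset V := univ.filter (fun w => w ≠ v ∧ ¬ E w v)

theorem mem_Wp {E : V → V → Prop} {v w : V} : w ∈ Wp E v ↔ w ≠ v ∧ ¬ E v w := by
  simp [Wp]

theorem mem_Wm {E : V → V → Prop} {v w : V} : w ∈ Wm E v ↔ w ≠ v ∧ ¬ E w v := by
  simp [Wm]

theorem card_Wp {E : V → V → Prop} (hE : ∀ v, ¬ E v v) (v : V) :
    (Wp E v).card + outDeg E v + 1 = Fintype.card V := by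
  classical
  have h1 : outDeg E v = (univ.filter (fun w => E v w)).card := by
    rw [outDeg, Nat.card_eq_fintype_card, Fintype.card_subtype]
  have h2 : (Wp E v) = (univ.filter (fun w => ¬ E v w)).erase v := by
    ext w; simp [mem_Wp]
  have h3 : v ∈ univ.filter (fun w => ¬ E v w) := by simp [hE]
  have h4 := Finset.card_erase_add_one h3
  rw [h2, h1]
  have h5 := Finset.card_filter_add_card_filter_not (s := (univ : Finset V)) (fun w => E v w)
  rw [Finset.card_univ] at h5
  omega

theorem card_Wm {E : V → V → Prop} (hE : ∀ v, ¬ E v v) (v : V) :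
    (Wm E v).card + inDeg E v + 1 = Fintype.card V := by
  have := card_Wp (E := fun a b => E b a) hE v
  exact this

/-- in a digraph without acyclic sets of size three, the non-out-neighbours of a vertex
pairwise form digons -/
theorem indep_Wp {E : V → V → Prop} (hE : ∀ v, ¬ E v v)
    (hα : ∀ A : Finset V, AcyclicOn E (A : Set V) → A.card ≤ 2) (v : V) :
    Indep (cg E) (Wp E v) := by
  intro a ha b hb hab
  rw [mem_Wp] at ha hb
  obtain ⟨hne, hdig⟩ := hab
  -- one of the arcs between a and b is missing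
  have key : ∀ x y : V, x ≠ v → y ≠ v → ¬ E v x → ¬ E v y → x ≠ y → ¬ E x y → False := by
    intro x y hx hy hvx hvy hxy hExy
    have hac : AcyclicOn E (({v, x, y} : Finset V) : Set V) := by
      intro z hz
      let rk : V → ℕ := fun w => if w = v then 0 else if w = x then 1 else 2
      have hmono : ∀ s t : V, Relation.TransGen (fun a b => a ∈ (({v, x, y} : Finset V) : Set V) ∧
          b ∈ (({v, x, y} : Finset V) : Set V) ∧ E a b) s t → rk t < rk s := by
        intro s t hst
        have hstep : ∀ a b : V, a ∈ (({v, x, y} : Finset V) : Set V) →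
            b ∈ (({v, x, y} : Finset V) : Set V) → E a b → rk b < rk a := by
          intro a b ha hb hab
          simp only [coe_insert, coe_singleton, Set.mem_insert_iff, Set.mem_singleton_iff] at ha hb
          rcases ha with rfl | rfl | rfl <;> rcases hb with rfl | rfl | rfl
          · exact absurd hab (hE _)
          · exact absurd hab hvx
          · exact absurd hab hvy
          · simp [rk, hx]
          · exact absurd hab (hE _)
          · exact absurd hab hExy
          · simp [rk, hy, hxy.symm]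
          · simp [rk, hx, hy, hxy.symm]
          · exact absurd hab (hE _)
        induction hst with
        | single h => exact hstep _ _ h.1 h.2.1 h.2.2
        | tail _ h ih => exact lt_trans (hstep _ _ h.1 h.2.1 h.2.2) ih
      exact lt_irrefl _ (hmono z z hz)
    have := hα _ hac
    rw [Finset.card_insert_of_notMem, Finset.card_insert_of_notMem, Finset.card_singleton] at this
    · omega
    · simpa using hxy
    · simp [hx.symm, hy.symm]
  by_cases h1 : E a b
  · have h2 : ¬ E b a := fun h => hdig ⟨h1, h⟩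
    exact key b a hb.1 ha.1 hb.2 ha.2 hne.symm h2
  · exact key a b ha.1 hb.1 ha.2 hb.2 hne h1

omit [Fintype V] [DecidableEq V] in
theorem acyclicOn_rev {E : V → V → Prop} {A : Set V} (h : AcyclicOn (fun a b => E b a) A) :
    AcyclicOn E A := by
  intro x hx
  apply h x
  have := Relation.transGen_swap.mpr hx
  refine Relation.TransGen.mono ?_ x x this
  intro a b hab
  exact ⟨hab.2.1, hab.1, hab.2.2⟩

theorem indep_Wm {E : V → V → Prop} (hE : ∀ v, ¬ E v v)
    (hα : ∀ A : Finset V, AcyclicOn E (A : Set V) → A.card ≤ 2) (v : V) :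
    Indep (cg E) (Wm E v) := by
  have h := indep_Wp (E := fun a b => E b a) hE (fun A hA => hα A (acyclicOn_rev hA)) v
  intro a ha b hb hab
  exact h a ha b hb ⟨hab.1, fun hh => hab.2 ⟨hh.2, hh.1⟩⟩

omit [DecidableEq V] in
theorem dicolourable_of_PC {E : V → V → Prop} (hE : ∀ v, ¬ E v v) {c : ℕ}
    (h : PC (cg E) univ c) : Dicolourable E c := by
  obtain ⟨φ, h1, h2, h3⟩ := h
  refine ⟨fun v => ⟨φ v, h1 v (mem_univ v)⟩, ?_⟩
  intro i x hx
  obtain ⟨y, ⟨hxi, hyi, hxy⟩, hyx⟩ := Relation.TransGen.head'_iff.mp hx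
  have hne : x ≠ y := by rintro rfl; exact hE _ hxy
  have hφ : φ x = φ y := by
    have h4 := hxi.trans hyi.symm
    simpa using h4
  rcases Relation.ReflTransGen.cases_head hyx with heq | ⟨z, ⟨_, hzi, hyz⟩, _⟩
  · exact hne heq.symm
  · have hφ2 : φ y = φ z := by
      have h4 := hyi.trans hzi.symm
      simpa using h4
    have hyz' : y ≠ z := by rintro rfl; exact hE _ hyz
    rcases h3 x (mem_univ _) y (mem_univ _) z (mem_univ _) hφ hφ2 with h | h | h
    · exact hne h
    · exact hyz' h
    · subst h
      exact (h2 x (mem_univ _) y (mem_univ _) hne hφ).2 ⟨hxy, hyz⟩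

omit [Fintype V] [DecidableEq V] in
theorem containsH_mk {E : V → V → Prop} {Δ : ℕ} {p q r : V} (hpq : E p q) (hqr : E q r)
    (hrp : E r p) (h1 : p ≠ q) (h2 : q ≠ r) (h3 : p ≠ r) {K : Finset V} (hK : K.card = Δ - 2)
    (hpK : p ∉ K) (hqK : q ∉ K) (hrK : r ∉ K) (hKK : IsBiclique E K)
    (hj : ∀ x ∈ K, (E p x ∧ E x p) ∧ (E q x ∧ E x q) ∧ (E r x ∧ E x r)) : ContainsH E Δ := by
  classical
  let e : Fin (Δ - 2) ≃ K := (K.equivFin.trans (finCongr hK)).symm
  refine ⟨Sum.elim ![p, q, r] (fun j => (e j).1), ?_, ?_, ?_, ?_⟩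
  · rw [Sum.elim_injective]
    refine ⟨?_, ?_, ?_⟩
    · intro i j hij
      fin_cases i <;> fin_cases j <;> simp_all
    · intro i j hij
      exact e.injective (Subtype.ext hij)
    · intro i j hij
      have hm : (e j).1 ∈ K := (e j).2
      rw [← hij] at hm
      fin_cases i
      · exact hpK hm
      · exact hqK hm
      · exact hrK hm
  · intro i
    fin_cases i
    · exact hpq
    · exact hqr
    · exact hrp
  · intro i j
    have := hj (e j).1 (e j).2
    fin_cases i
    · exact this.1
    · exact this.2.1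
    · exact this.2.2
  · intro i j hij
    apply hKK _ (e i).2 _ (e j).2
    intro h
    exact hij (e.injective (Subtype.ext h))

/-- assembling the result from the matching part and the exclusion of large orders -/
theorem assemble {Δ : ℕ} (hΔ : 9 ≤ Δ) {E : V → V → Prop} (hE : ∀ v, ¬ E v v)
    (hα : ∀ A : Finset V, AcyclicOn E (A : Set V) → A.card ≤ 2)
    (hdeg : ∀ v, outDeg E v ≤ Δ ∨ inDeg E v ≤ Δ)
    (hω : ∀ S : Finset V, IsBiclique E S → S.card ≤ Δ - 1)
    (hH : ¬ ContainsH E Δ)
    (hbig : Fintype.card V + 1 < 2 * Δ) : Dicolourable E (Δ - 1) := by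
  classical
  apply dicolourable_of_PC hE
  have hindep : ∀ Z : Finset V, Indep (cg E) Z → Z.card ≤ Δ - 1 := by
    intro Z hZ
    apply hω
    intro u hu v hv huv
    by_contra hcon
    exact hZ u hu v hv ⟨huv, fun hh => hcon hh.1⟩
  rcases Nat.lt_or_ge (Fintype.card V) Δ with hN | hN
  · have := PC.card (H := cg E) (univ : Finset V)
    rw [Finset.card_univ] at this
    exact this.mono (by omega)
  rcases Nat.eq_or_lt_of_le hN with hN' | hN'
  · -- exactly Δ vertices
    have : ¬ Indep (cg E) univ := by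
      intro h
      have := hindep univ h
      rw [Finset.card_univ] at this
      omega
    unfold Indep at this
    push Not at this
    obtain ⟨x, hx, y, hy, hxy⟩ := this
    have h2 := Finset.card_sdiff_add_card_eq_card (Finset.subset_univ ({x, y} : Finset V))
    have h4 : ({x, y} : Finset V).card = 2 := Finset.card_pair hxy.ne
    rw [Finset.card_univ] at h2
    exact ((PC.card (H := cg E) (univ \ {x, y})).add_pair hxy).mono (by omega)
  · have hWC : WC (cg E) (Fintype.card V - 1 - Δ) univ := by
      intro v _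
      rcases hdeg v with h | h
      · refine ⟨Wp E v, Finset.subset_univ _, ?_, indep_Wp hE hα v, ?_⟩
        · intro w hw
          rw [mem_Wp] at hw
          exact ⟨hw.1.symm, fun hh => hw.2 hh.1⟩
        · have := card_Wp hE v
          omega
      · refine ⟨Wm E v, Finset.subset_univ _, ?_, indep_Wm hE hα v, ?_⟩
        · intro w hw
          rw [mem_Wm] at hw
          exact ⟨hw.1.symm, fun hh => hw.2 hh.2⟩
        · have := card_Wm hE v
          omega
    have hcard : (univ : Finset V).card = (Δ - 1) + (Fintype.card V - 1 - Δ) + 2 := by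
      rw [Finset.card_univ]; omega
    rcases good hcard (by omega) (by omega) hWC with hg | ⟨Z, _, hZ, hZc⟩ | ⟨Z, _, hZ, hZc⟩
    · exact hg
    · have := hindep Z hZ
      omega
    · exfalso
      apply hH
      obtain ⟨p, hp, q, hq, r, hr, hpq, hqr, hpr, hiso⟩ := hZ
      -- the complete part
      have hsub : ({p, q, r} : Finset V) ⊆ Z := by
        intro v hv
        simp only [mem_insert, mem_singleton] at hv
        rcases hv with rfl | rfl | rfl <;> assumption
      have h3 : ({p, q, r} : Finset V).card = 3 := by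
        rw [Finset.card_insert_of_notMem, Finset.card_insert_of_notMem, Finset.card_singleton]
        · simpa using hqr.ne
        · simp [hpq.ne, hpr.ne]
      have hKc : (Z \ {p, q, r}).card = Δ - 2 := by
        have := Finset.card_sdiff_add_card_eq_card hsub
        omega
      have hnonadj : ∀ x ∈ Z \ {p, q, r}, ∀ y ∈ Z, x ≠ y → E x y ∧ E y x := by
        intro x hx y hy hxy
        by_contra hcon
        rw [Finset.mem_sdiff] at hx
        have := (hiso x hx.1 y hy ⟨hxy, hcon⟩).1
        apply hx.2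
        simp only [mem_insert, mem_singleton]
        exact this
      have hKK : IsBiclique E (Z \ {p, q, r}) := by
        intro u hu v hv huv
        exact (hnonadj u hu v (Finset.sdiff_subset hv) huv).1
      have hpK : p ∉ Z \ {p, q, r} := by simp
      have hqK : q ∉ Z \ {p, q, r} := by simp
      have hrK : r ∉ Z \ {p, q, r} := by simp
      have hjoin : ∀ x ∈ Z \ {p, q, r}, (E p x ∧ E x p) ∧ (E q x ∧ E x q) ∧ (E r x ∧ E x r) := by
        intro x hx
        have e1 := hnonadj x hx p hp (by rintro rfl; exact hpK hx)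
        have e2 := hnonadj x hx q hq (by rintro rfl; exact hqK hx)
        have e3 := hnonadj x hx r hr (by rintro rfl; exact hrK hx)
        exact ⟨⟨e1.2, e1.1⟩, ⟨e2.2, e2.1⟩, ⟨e3.2, e3.1⟩⟩
      -- each of p, q, r has an out-neighbour among the other two
      have out : ∀ a b d : V, a ≠ b → b ≠ d → a ≠ d → (cg E).Adj b d → E a b ∨ E a d := by
        intro a b d hab hbd had hadj
        by_contra hcon
        push Not at hcon
        exact indep_Wp hE hα a b (mem_Wp.mpr ⟨hab.symm, hcon.1⟩) d
          (mem_Wp.mpr ⟨had.symm, hcon.2⟩) hadj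
      have o1 := out p q r hpq.ne hqr.ne hpr.ne hqr
      have o2 := out q p r hpq.ne.symm hpr.ne hqr.ne hpr
      have o3 := out r p q hpr.ne.symm hpq.ne hqr.ne.symm hpq
      have n1 := hpq.2
      have n2 := hqr.2
      have n3 := hpr.2
      by_cases hE1 : E p q
      · have a1 : ¬ E q p := fun h => n1 ⟨hE1, h⟩
        have a2 : E q r := o2.resolve_left a1
        have a3 : ¬ E r q := fun h => n2 ⟨a2, h⟩
        have a4 : E r p := o3.resolve_right a3
        exact containsH_mk hE1 a2 a4 hpq.ne hqr.ne hpr.ne hKc hpK hqK hrK hKK hjoin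
      · have a1 : E p r := o1.resolve_left hE1
        have a2 : ¬ E r p := fun h => n3 ⟨a1, h⟩
        have a3 : E r q := o3.resolve_left a2
        have a4 : ¬ E q r := fun h => n2 ⟨h, a3⟩
        have a5 : E q p := o2.resolve_right a4
        refine containsH_mk a1 a3 a5 hpr.ne hqr.ne.symm hpq.ne hKc hpK hrK hqK hKK ?_
        intro x hx
        exact ⟨(hjoin x hx).1, (hjoin x hx).2.2, (hjoin x hx).2.1⟩

/-! ### Exclusion of large orders -/

/-- the maximum out-degree version -/
theorem no_large_out {Δ : ℕ} (hΔ : 9 ≤ Δ) (H : SimpleGraph V) (P : V → Finset V)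
    (hadj : ∀ u v, H.Adj u v ↔ (v ∈ P u ∨ u ∈ P v)) (hind : ∀ v, Indep H (P v))
    (hsize : ∀ v, Fintype.card V ≤ (P v).card + 1 + Δ) (hN : 2 * Δ ≤ Fintype.card V + 1)
    (hα : ∀ Z : Finset V, Indep H Z → Z.card ≤ Δ - 1) : False := by
  classical
  obtain ⟨A, hA, hAmax⟩ := Finset.exists_max_image
    ((univ : Finset V).powerset.filter (fun Z => Indep H Z)) Finset.card ⟨∅, by
      rw [mem_filter, mem_powerset]
      exact ⟨Finset.empty_subset _, fun u hu => absurd hu (Finset.notMem_empty u)⟩⟩
  simp only [mem_filter, mem_powerset] at hA hAmax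
  have hAI := hA.2
  have hmax : ∀ Z : Finset V, Indep H Z → Z.card ≤ A.card :=
    fun Z hZ => hAmax Z ⟨Finset.subset_univ _, hZ⟩
  have haΔ := hα A hAI
  have hcardC := Finset.card_sdiff_add_card_eq_card (Finset.subset_univ A)
  rw [Finset.card_univ] at hcardC
  set C := univ \ A with hC
  have memC : ∀ v, v ∈ C ↔ v ∉ A := by intro v; simp [hC]
  have hPa : ∀ v, (P v).card ≤ A.card := fun v => hmax _ (hind v)
  have hPC : ∀ w ∈ A, P w ⊆ C := by
    intro w hw x hx
    rw [memC]
    intro hxA
    exact hAI w hw x hxA ((hadj w x).mpr (Or.inl hx))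
  have hCadj : ∀ c ∈ C, ∃ w ∈ A, H.Adj c w := by
    intro c hc
    by_contra hcon
    push Not at hcon
    have h1 := hmax (insert c A) (hAI.insert' hcon)
    rw [Finset.card_insert_of_notMem ((memC c).mp hc)] at h1
    omega
  have hlow : ∀ c ∈ C, Fintype.card V + A.card ≤ (P c ∩ A).card + 2 + 2 * Δ := by
    intro c hc
    have hsplit : (P c ∩ A).card + (P c ∩ C).card = (P c).card := by
      have h1 := Finset.card_inter_add_card_sdiff (P c) A
      have h2 : P c \ A = P c ∩ C := by ext x; simp [memC]
      rw [h2] at h1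
      exact h1
    have hs := hsize c
    by_cases hne : (P c ∩ A).Nonempty
    · obtain ⟨w, hw⟩ := hne
      rw [mem_inter] at hw
      have hdisj : Disjoint (P w) (P c ∩ C) := by
        rw [Finset.disjoint_left]
        intro x hx hx2
        rw [mem_inter] at hx2
        exact hind c w hw.1 x hx2.1 ((hadj w x).mpr (Or.inl hx))
      have h1 : (P w ∪ (P c ∩ C)).card ≤ C.card :=
        Finset.card_le_card (Finset.union_subset (hPC w hw.2) Finset.inter_subset_right)
      rw [Finset.card_union_of_disjoint hdisj] at h1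
      have := hsize w
      omega
    · exfalso
      rw [Finset.not_nonempty_iff_eq_empty] at hne
      have hPcC : P c ⊆ C := by
        intro x hx
        rw [memC]
        intro hxA
        have : x ∈ P c ∩ A := mem_inter.mpr ⟨hx, hxA⟩
        rw [hne] at this
        exact absurd this (Finset.notMem_empty x)
      obtain ⟨w, hw, hcw⟩ := hCadj c hc
      rcases (hadj c w).mp hcw with h | h
      · exact ((memC w).mp (hPcC h)) hw
      · have hdisj : Disjoint (P w) (P c) := by
          rw [Finset.disjoint_left]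
          intro x hx hx2
          exact hind w c h x hx ((hadj c x).mpr (Or.inl hx2))
        have h1 : (P w ∪ P c).card ≤ C.card :=
          Finset.card_le_card (Finset.union_subset (hPC w hw) hPcC)
        rw [Finset.card_union_of_disjoint hdisj] at h1
        have := hsize w
        have := hPa w
        omega
  -- an edge inside C
  have hCedge : ¬ Indep H C := by
    intro h
    have := hmax C h
    omega
  unfold Indep at hCedge
  push Not at hCedge
  obtain ⟨x, hx, y, hy, hxy⟩ := hCedge
  have key : ∀ c ∈ C, ∀ d ∈ C, d ∈ P c → False := by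
    intro c hc d hd hdc
    have hdisj : Disjoint (P c ∩ A) (P d ∩ A) := by
      rw [Finset.disjoint_left]
      intro z hz hz2
      rw [mem_inter] at hz hz2
      exact hind c d hdc z hz.1 ((hadj d z).mpr (Or.inl hz2.1))
    have h1 : ((P c ∩ A) ∪ (P d ∩ A)).card ≤ A.card :=
      Finset.card_le_card (Finset.union_subset Finset.inter_subset_right Finset.inter_subset_right)
    rw [Finset.card_union_of_disjoint hdisj] at h1
    have h2 := hlow c hc
    have h3 := hlow d hd
    have h4 := hsize c
    have h5 := hPa c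
    omega
  rcases (hadj x y).mp hxy with h | h
  · exact key x hx y hy h
  · exact key y hy x hx h

/-- one half of the count for the geometric-mean version -/
theorem low_tilde {Δ : ℕ} (hΔ : 9 ≤ Δ) (H : SimpleGraph V) (P M : V → Finset V)
    (hadj : ∀ u v, H.Adj u v ↔ (v ∈ P u ∨ u ∈ P v)) (hdual : ∀ u v, v ∈ M u ↔ u ∈ P v)
    (hind : ∀ v, Indep H (P v)) (hindM : ∀ v, Indep H (M v))
    (hs1 : ∀ v, 2 * Fintype.card V ≤ (P v).card + (M v).card + 2 + 2 * Δ)
    (hs2 : ∀ v, Fintype.card V ≤ (P v).card + 2 + Δ) (hN : 2 * Δ ≤ Fintype.card V + 1)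
    {A : Finset V} (hAI : Indep H A) (hmax : ∀ Z : Finset V, Indep H Z → Z.card ≤ A.card)
    {c : V} (hc : c ∉ A) :
    (P c \ A).card + A.card ≤ Δ + 1 := by
  classical
  have hcardC := Finset.card_sdiff_add_card_eq_card (Finset.subset_univ A)
  rw [Finset.card_univ] at hcardC
  set C := univ \ A with hC
  have memC : ∀ v, v ∈ C ↔ v ∉ A := by intro v; simp [hC]
  have hPC : ∀ w ∈ A, P w ⊆ C := by
    intro w hw x hx
    rw [memC]
    intro hxA
    exact hAI w hw x hxA ((hadj w x).mpr (Or.inl hx))
  have hMC : ∀ w ∈ A, M w ⊆ C := by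
    intro w hw x hx
    rw [memC]
    intro hxA
    exact hAI w hw x hxA ((hadj w x).mpr (Or.inr ((hdual w x).mp hx)))
  have hPcC : P c \ A ⊆ C := by
    intro x hx
    rw [memC]
    exact (Finset.mem_sdiff.mp hx).2
  by_cases hne : (P c ∩ A).Nonempty
  · obtain ⟨w, hw⟩ := hne
    rw [mem_inter] at hw
    have hd1 : Disjoint (P w) (P c \ A) := by
      rw [Finset.disjoint_left]
      intro x hx hx2
      exact hind c w hw.1 x (Finset.sdiff_subset hx2) ((hadj w x).mpr (Or.inl hx))
    have hd2 : Disjoint (M w) (P c \ A) := by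
      rw [Finset.disjoint_left]
      intro x hx hx2
      exact hind c w hw.1 x (Finset.sdiff_subset hx2)
        ((hadj w x).mpr (Or.inr ((hdual w x).mp hx)))
    have h1 : (P w ∪ (P c \ A)).card ≤ C.card :=
      Finset.card_le_card (Finset.union_subset (hPC w hw.2) hPcC)
    have h2 : (M w ∪ (P c \ A)).card ≤ C.card :=
      Finset.card_le_card (Finset.union_subset (hMC w hw.2) hPcC)
    rw [Finset.card_union_of_disjoint hd1] at h1
    rw [Finset.card_union_of_disjoint hd2] at h2
    have := hs1 w
    omega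
  · exfalso
    rw [Finset.not_nonempty_iff_eq_empty] at hne
    have hPcC' : P c ⊆ C := by
      intro x hx
      rw [memC]
      intro hxA
      have : x ∈ P c ∩ A := mem_inter.mpr ⟨hx, hxA⟩
      rw [hne] at this
      exact absurd this (Finset.notMem_empty x)
    obtain ⟨w, hw, hcw⟩ : ∃ w ∈ A, H.Adj c w := by
      by_contra hcon
      push Not at hcon
      have h1 := hmax (insert c A) (hAI.insert' hcon)
      rw [Finset.card_insert_of_notMem hc] at h1
      omega
    rcases (hadj c w).mp hcw with h | h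
    · exact ((memC w).mp (hPcC' h)) hw
    · have hdisj : Disjoint (P w) (P c) := by
        rw [Finset.disjoint_left]
        intro x hx hx2
        exact hind w c h x hx ((hadj c x).mpr (Or.inl hx2))
      have h1 : (P w ∪ P c).card ≤ C.card :=
        Finset.card_le_card (Finset.union_subset (hPC w hw) hPcC')
      rw [Finset.card_union_of_disjoint hdisj] at h1
      have := hs2 w
      have := hs2 c
      have := hs1 c
      have := hmax _ (hind c)
      have := hmax _ (hindM c)
      omega

/-- the geometric-mean version -/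
theorem no_large_tilde {Δ : ℕ} (hΔ : 9 ≤ Δ) (H : SimpleGraph V) (P M : V → Finset V)
    (hadj : ∀ u v, H.Adj u v ↔ (v ∈ P u ∨ u ∈ P v)) (hdual : ∀ u v, v ∈ M u ↔ u ∈ P v)
    (hind : ∀ v, Indep H (P v)) (hindM : ∀ v, Indep H (M v))
    (hs1 : ∀ v, 2 * Fintype.card V ≤ (P v).card + (M v).card + 2 + 2 * Δ)
    (hs2 : ∀ v, Fintype.card V ≤ (P v).card + 2 + Δ)
    (hs3 : ∀ v, Fintype.card V ≤ (M v).card + 2 + Δ) (hN : 2 * Δ ≤ Fintype.card V + 1)
    (hα : ∀ Z : Finset V, Indep H Z → Z.card ≤ Δ - 1) : False := by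
  classical
  obtain ⟨A, hA, hAmax⟩ := Finset.exists_max_image
    ((univ : Finset V).powerset.filter (fun Z => Indep H Z)) Finset.card ⟨∅, by
      rw [mem_filter, mem_powerset]
      exact ⟨Finset.empty_subset _, fun u hu => absurd hu (Finset.notMem_empty u)⟩⟩
  simp only [mem_filter, mem_powerset] at hA hAmax
  have hAI := hA.2
  have hmax : ∀ Z : Finset V, Indep H Z → Z.card ≤ A.card :=
    fun Z hZ => hAmax Z ⟨Finset.subset_univ _, hZ⟩
  have haΔ := hα A hAI
  have hcardC := Finset.card_sdiff_add_card_eq_card (Finset.subset_univ A)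
  rw [Finset.card_univ] at hcardC
  have hlow : ∀ c, c ∉ A → (P c \ A).card + A.card ≤ Δ + 1 := fun c hc =>
    low_tilde hΔ H P M hadj hdual hind hindM hs1 hs2 hN hAI hmax hc
  have hadjM : ∀ u v, H.Adj u v ↔ (v ∈ M u ∨ u ∈ M v) := by
    intro u v
    rw [hadj u v, hdual u v, hdual v u]
    exact or_comm
  have hlowM : ∀ c, c ∉ A → (M c \ A).card + A.card ≤ Δ + 1 := fun c hc =>
    low_tilde hΔ H M P hadjM (fun u v => (hdual v u).symm) hindM hind
      (fun v => by have := hs1 v; omega) hs3 hN hAI hmax hc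
  have hCedge : ¬ Indep H (univ \ A) := by
    intro h
    have := hmax _ h
    omega
  unfold Indep at hCedge
  push Not at hCedge
  obtain ⟨x, hx, y, hy, hxy⟩ := hCedge
  have key : ∀ c, c ∉ A → ∀ d, d ∉ A → d ∈ P c → False := by
    intro c hc d hd hdc
    have hdisj : Disjoint (P c ∩ A) (P d ∩ A) := by
      rw [Finset.disjoint_left]
      intro z hz hz2
      rw [mem_inter] at hz hz2
      exact hind c d hdc z hz.1 ((hadj d z).mpr (Or.inl hz2.1))
    have hdisjM : Disjoint (M c ∩ A) (M d ∩ A) := by
      rw [Finset.disjoint_left]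
      intro z hz hz2
      rw [mem_inter] at hz hz2
      have hcd : c ∈ M d := (hdual d c).mpr hdc
      exact hindM d c hcd z hz2.1 ((hadjM c z).mpr (Or.inl hz.1))
    have h1 : ((P c ∩ A) ∪ (P d ∩ A)).card ≤ A.card :=
      Finset.card_le_card (Finset.union_subset Finset.inter_subset_right Finset.inter_subset_right)
    have h2 : ((M c ∩ A) ∪ (M d ∩ A)).card ≤ A.card :=
      Finset.card_le_card (Finset.union_subset Finset.inter_subset_right Finset.inter_subset_right)
    rw [Finset.card_union_of_disjoint hdisj] at h1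
    rw [Finset.card_union_of_disjoint hdisjM] at h2
    have e1 := Finset.card_inter_add_card_sdiff (P c) A
    have e2 := Finset.card_inter_add_card_sdiff (P d) A
    have e3 := Finset.card_inter_add_card_sdiff (M c) A
    have e4 := Finset.card_inter_add_card_sdiff (M d) A
    have l1 := hlow c hc
    have l2 := hlow d hd
    have l3 := hlowM c hc
    have l4 := hlowM d hd
    have s1 := hs1 c
    have s2 := hs1 d
    have m1 := hmax _ (hind c)
    have m2 := hmax _ (hindM c)
    omega
  have hx' := (Finset.mem_sdiff.mp hx).2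
  have hy' := (Finset.mem_sdiff.mp hy).2
  rcases (hadj x y).mp hxy with h | h
  · exact key x hx' y hy' h
  · exact key y hy' x hx' h

theorem cg_adj_iff {E : V → V → Prop} (u v : V) :
    (cg E).Adj u v ↔ (v ∈ Wp E u ∨ u ∈ Wp E v) := by
  simp only [cg, mem_Wp]
  constructor
  · rintro ⟨h1, h2⟩
    by_cases h : E u v
    · right; exact ⟨h1, fun hh => h2 ⟨h, hh⟩⟩
    · left; exact ⟨h1.symm, h⟩
  · rintro (⟨h1, h2⟩ | ⟨h1, h2⟩)
    · exact ⟨h1.symm, fun hh => h2 hh.1⟩
    · exact ⟨h1, fun hh => h2 hh.2⟩

/-- maximum out-degree version of the theorem -/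
theorem main_out {Δ : ℕ} (hΔ : 9 ≤ Δ) {E : V → V → Prop} (hE : ∀ v, ¬ E v v)
    (hα : ∀ A : Finset V, AcyclicOn E (A : Set V) → A.card ≤ 2)
    (hdeg : ∀ v, outDeg E v ≤ Δ)
    (hω : ∀ S : Finset V, IsBiclique E S → S.card ≤ Δ - 1)
    (hH : ¬ ContainsH E Δ) : Dicolourable E (Δ - 1) := by
  apply assemble hΔ hE hα (fun v => Or.inl (hdeg v)) hω hH
  by_contra hbig
  refine no_large_out hΔ (cg E) (Wp E) (fun u v => cg_adj_iff u v) (indep_Wp hE hα) ?_
    (by omega) ?_
  · intro v
    have := card_Wp hE v
    have := hdeg v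
    omega
  · intro Z hZ
    apply hω
    intro u hu v hv huv
    by_contra hcon
    exact hZ u hu v hv ⟨huv, fun hh => hcon hh.1⟩

/-- geometric-mean version of the theorem -/
theorem main_tilde {Δ : ℕ} (hΔ : 9 ≤ Δ) {E : V → V → Prop} (hE : ∀ v, ¬ E v v)
    (hα : ∀ A : Finset V, AcyclicOn E (A : Set V) → A.card ≤ 2)
    (hdeg : ∀ v, outDeg E v * inDeg E v ≤ Δ ^ 2)
    (hω : ∀ S : Finset V, IsBiclique E S → S.card ≤ Δ - 1)
    (hH : ¬ ContainsH E Δ) : Dicolourable E (Δ - 1) := by
  have hmin : ∀ v, outDeg E v ≤ Δ ∨ inDeg E v ≤ Δ := by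
    intro v
    by_contra hcon
    push Not at hcon
    have := hdeg v
    nlinarith [hcon.1, hcon.2]
  have hindep : ∀ Z : Finset V, Indep (cg E) Z → Z.card ≤ Δ - 1 := by
    intro Z hZ
    apply hω
    intro u hu v hv huv
    by_contra hcon
    exact hZ u hu v hv ⟨huv, fun hh => hcon hh.1⟩
  apply assemble hΔ hE hα hmin hω hH
  by_contra hbig
  have hsum : ∀ v, outDeg E v + inDeg E v ≤ 2 * Δ ∧ Δ - 1 ≤ outDeg E v ∧ Δ - 1 ≤ inDeg E v := by
    intro v
    have h1 := card_Wp hE v
    have h2 := card_Wm hE v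
    have h3 := hindep _ (indep_Wp hE hα v)
    have h4 := hindep _ (indep_Wm hE hα v)
    have h5 := hdeg v
    have h6 : Δ - 1 ≤ outDeg E v := by omega
    have h7 : Δ - 1 ≤ inDeg E v := by omega
    refine ⟨?_, h6, h7⟩
    by_contra hcon
    obtain ⟨e, rfl⟩ : ∃ e, Δ = e + 1 := ⟨Δ - 1, by omega⟩
    obtain ⟨i, hi⟩ : ∃ i, outDeg E v = e + i := ⟨outDeg E v - e, by omega⟩
    obtain ⟨j, hj⟩ : ∃ j, inDeg E v = e + j := ⟨inDeg E v - e, by omega⟩
    rw [hi, hj] at h5 hcon
    have hij : 3 ≤ i + j := by omega
    nlinarith [Nat.zero_le (i * j), Nat.mul_le_mul_left e hij]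
  refine no_large_tilde hΔ (cg E) (Wp E) (Wm E) (fun u v => cg_adj_iff u v) ?_ (indep_Wp hE hα)
    (indep_Wm hE hα) ?_ ?_ ?_ (by omega) hindep
  · intro u v
    rw [mem_Wm, mem_Wp]
    constructor
    · rintro ⟨h1, h2⟩; exact ⟨h1.symm, h2⟩
    · rintro ⟨h1, h2⟩; exact ⟨h1.symm, h2⟩
  · intro v
    have h1 := card_Wp hE v
    have h2 := card_Wm hE v
    have := hsum v
    omega
  · intro v
    have h1 := card_Wp hE v
    have := hsum v
    omega
  · intro v
    have h2 := card_Wm hE v
    have := hsum v
    omega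

end

end Pool.Agent.DBK
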